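import Pool.Agent.Lib.MP_af3a4a_an.P1.CHK.H74.OffSound

set_option autoImplicit false

/-!
# Off-ray duals, part E: `ochk ... = true` gives the dual inequality (council 2, helper74)
-/

namespace Pool.Agent.Lib.MP_af3a4a_an.P1.CHK.H74

open ComplexConjugate
open Pool.Agent.Lib.MP_af3a4a_an.SV (uu av)
open Pool.Agent.Lib.MP_af3a4a_an.P1.H80
open Pool.Agent.Lib.MP_af3a4a_an.P1.CHK.H58 (S kK kL S_cast tab_sound)
open Pool.Agent.Lib.MP_af3a4a_an.P1.CHK.Arith (ev ev_eq ad ad_cast sub_le_cast)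
open Pool.Agent.Lib.MP_af3a4a_an.P1.CHK.Curve (cN sN tab_ok cos_nonneg_tab sin_nonneg_tab)

theorem nat_div (x y : ℕ) : Nat.div x y = x / y := rfl

theorem kK_lt (i : ℕ) : kK i < 4294967296 := Nat.mod_lt _ (by norm_num)

section

variable {M k xm r0 r1 a gp gn dp dn hp hn : ℕ}

theorem cel_sound (hM : 0 < M) (hx : xm ≤ 4 * M) (hk : k ≤ 100) (hr : r0 ≤ r1)
    {b0 b1 i la : ℕ} (hb : b0 ≤ b1) {B R : ℝ} (hB0 : (b0 : ℝ) / M ≤ B) (hB1 : B ≤ b1 / M)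
    (hR0 : (r0 : ℝ) / M ≤ R) (hR1 : R ≤ r1 / M)
    (h : cel M (M * M) (M * 1099511627776) (xm * cN k) (xm * sN k) (xm * xm * M) (2 * a) r0 r1
      gp gn dp dn (17825792 + 2 * hn) (2 * a + 2 * hp) b0 b1 i la = true) :
    0 ≤ FF ((a : ℝ) / S) (((gp : ℝ) - gn) / S)
      ((kK i : ℝ) / S * ((xm : ℝ) / M * Real.cos (k / 64)))
      (((dp : ℝ) - dn) / S - (kK i : ℝ) / S * ((xm : ℝ) / M * Real.sin (k / 64)))
      ((kK i : ℝ) / S * ((xm : ℝ) / M) ^ 2)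
      (-2 * ((a : ℝ) / S) - 2 * (((hp : ℝ) - hn) / S) + 1 - ((kL i : ℝ) / S - 16)
        - (kK i : ℝ) / S - (la : ℝ) / S) ((la : ℝ) / S) B R := by
  have hMR : (0 : ℝ) < M := by exact_mod_cast hM
  have hS : (0 : ℝ) < S := by rw [S_cast]; norm_num
  obtain ⟨tc1, tc2, ts1, ts2⟩ := tab_ok (k := k) (by omega)
  rw [abs_of_nonneg (cos_nonneg_tab hk)] at tc1 tc2
  rw [abs_of_nonneg (sin_nonneg_tab (by omega))] at ts1 ts2
  have hap1 := q_approx hM (kK_lt i) hx tc1 tc2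
  have hap2 := q_approx hM (kK_lt i) hx ts1 ts2
  unfold cel at h
  simp only [ev_eq, Nat.add_eq, Nat.mul_eq, Nat.sub_eq, Nat.pow_eq, nat_div] at h
  obtain ⟨q1, hq1⟩ : ∃ q, q = kK i * (xm * cN k) / (M * 1099511627776) := ⟨_, rfl⟩
  obtain ⟨q2, hq2⟩ : ∃ q, q = kK i * (xm * sN k) / (M * 1099511627776) := ⟨_, rfl⟩
  rw [← hq1] at hap1
  rw [← hq2] at hap2
  rw [← hq1, ← hq2] at h
  obtain ⟨kneg, hkneg⟩ : ∃ q, q = 2 * a + 2 * hp + (kL i + (kK i + la)) := ⟨_, rfl⟩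
  rw [← hkneg] at h
  obtain ⟨kpM, hkpM⟩ : ∃ q, q = (17825792 + 2 * hn - kneg) * M := ⟨_, rfl⟩
  obtain ⟨u, hu⟩ : ∃ q, q = (kneg - (17825792 + 2 * hn)) * M := ⟨_, rfl⟩
  rw [← hkpM, ← hu] at h
  unfold crn4 at h
  simp only [ev_eq, Nat.add_eq, Nat.mul_eq, Bool.and_eq_true] at h
  obtain ⟨⟨h00, h01⟩, h10, h11⟩ := h
  obtain ⟨K, hK⟩ : ∃ K : ℝ, K = -2 * ((a : ℝ) / S) - 2 * (((hp : ℝ) - hn) / S) + 1
      - ((kL i : ℝ) / S - 16) - (kK i : ℝ) / S - (la : ℝ) / S := ⟨_, rfl⟩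
  rw [← hK]
  have hKu : (kpM : ℝ) - u = S * M * K := by
    rw [hkpM, hu, Nat.cast_mul, Nat.cast_mul, ← sub_mul, sub_sub_cast, hkneg, hK]
    push_cast
    field_simp
    rw [S_cast]
    ring
  have ht : ∀ b : ℕ, ((2 * a * b + kpM : ℕ) : ℝ) - u =
      S * M * (2 * ((a : ℝ) / S) * (b / M) + K) := by
    intro b
    have : ((2 * a * b + kpM : ℕ) : ℝ) - u = 2 * a * b + ((kpM : ℝ) - u) := by
      push_cast
      ring
    rw [this, hKu]
    field_simp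
  have hG : (((q1 + gn) * (M * M) : ℕ) : ℝ) - ((gp * (M * M) : ℕ) : ℝ) =
      ((q1 : ℝ) / S - ((gp : ℝ) - gn) / S) * (S * M ^ 2) := by
    push_cast
    field_simp
    ring
  have hV : ((((dp - (dn + q2) + (dn + q2 - dp)) * (M * M)) ^ 2 : ℕ) : ℝ) =
      ((((dp : ℝ) - dn) / S - (q2 : ℝ) / S) * (S * M ^ 2)) ^ 2 := by
    have h1 : ((dp - (dn + q2) + (dn + q2 - dp) : ℕ) : ℝ) = |(dp : ℝ) - (dn + q2 : ℕ)| :=
      ad_cast dp (dn + q2)
    rw [Nat.cast_pow, Nat.cast_mul, h1, mul_pow, sq_abs]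
    push_cast
    field_simp
    ring
  have hL : ((la * (M * (M * M)) : ℕ) : ℝ) = (la : ℝ) / S * (S * M ^ 3) := by
    push_cast
    field_simp
  have hX : ((kK i * (xm * xm * M) + err M (M * M) (2 * a) r0 r1 b0 b1 kpM u : ℕ) : ℝ) =
      (kK i : ℝ) / S * ((xm : ℝ) / M) ^ 2 * (S * M ^ 3) +
        (err M (M * M) (2 * a) r0 r1 b0 b1 kpM u : ℕ) := by
    push_cast
    field_simp
  have c00 := corner hM (ht b0) hG hV hL hX h00
  have c01 := corner hM (ht b0) hG hV hL hX h01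
  have c10 := corner hM (ht b1) hG hV hL hX h10
  have c11 := corner hM (ht b1) hG hV hL hX h11
  have ha0 : (0 : ℝ) ≤ (a : ℝ) / S := by positivity
  have han : ((2 * a : ℕ) : ℝ) = 2 * ((a : ℝ) / S) * S := by
    push_cast
    field_simp
  have hkey := err_ok (u := u) (kpM := kpM) hM hb hr han hB1 hR1
  have hm1 : 6 * ((a : ℝ) / S) * (b1 / M) + K ≤
      ((3 * (2 * a * b1) + kpM - u : ℕ) : ℝ) / (S * M) := by
    rw [le_div_iff₀ (by positivity)]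
    have h1 := sub_le_cast (3 * (2 * a * b1) + kpM) u
    have h2 : (6 * ((a : ℝ) / S) * (b1 / M) + K) * (S * M) =
        ((3 * (2 * a * b1) + kpM : ℕ) : ℝ) - u := by
      have : ((3 * (2 * a * b1) + kpM : ℕ) : ℝ) - u = 6 * a * b1 + ((kpM : ℝ) - u) := by
        push_cast
        ring
      rw [this, hKu]
      field_simp
    rw [h2]
    exact h1
  have hm2 : 2 * ((a : ℝ) / S) * (b1 / M) + K ≤
      ((2 * a * b1 + kpM - u : ℕ) : ℝ) / (S * M) := by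
    rw [le_div_iff₀ (by positivity)]
    have h1 := sub_le_cast (2 * a * b1 + kpM) u
    have h2 : (2 * ((a : ℝ) / S) * (b1 / M) + K) * (S * M) =
        ((2 * a * b1 + kpM : ℕ) : ℝ) - u := by
      rw [ht b1]
      ring
    rw [h2]
    exact h1
  have hcell := FF_cell (B := B) (R := R) (M1 := ((3 * (2 * a * b1) + kpM - u : ℕ) : ℝ) / (S * M))
    (M2 := ((2 * a * b1 + kpM - u : ℕ) : ℝ) / (S * M)) ha0 (by positivity) hB0 hB1 hR0 hR1
    (by positivity) hm1 (by positivity) hm2 c00 c01 c10 c11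
  have hBn : 0 ≤ B := le_trans (by positivity) hB0
  have hRn : 0 ≤ R := le_trans (by positivity) hR0
  have hpert := FF_perturb (α := (a : ℝ) / S) (γ := ((gp : ℝ) - gn) / S) (c1 := (q1 : ℝ) / S)
    (a2 := ((dp : ℝ) - dn) / S - (q2 : ℝ) / S) (q := (kK i : ℝ) / S * ((xm : ℝ) / M) ^ 2) (K := K)
    (lam := (la : ℝ) / S) (ε := 2 / S)
    (c1' := (kK i : ℝ) / S * ((xm : ℝ) / M * Real.cos (k / 64)))
    (a2' := ((dp : ℝ) - dn) / S - (kK i : ℝ) / S * ((xm : ℝ) / M * Real.sin (k / 64))) hBn hRn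
    hap1 (by
      have e : ((dp : ℝ) - dn) / S - (kK i : ℝ) / S * ((xm : ℝ) / M * Real.sin (k / 64)) -
          (((dp : ℝ) - dn) / S - (q2 : ℝ) / S) =
          -((kK i : ℝ) / S * ((xm : ℝ) / M * Real.sin (k / 64)) - (q2 : ℝ) / S) := by ring
      rw [e, abs_neg]
      exact hap2)
  refine le_trans ?_ hpert
  linarith

/-- the conclusion for one `w` -/
def Pt (M k xm a gp gn dp dn hp hn : ℕ) (R : ℝ) (v : ℂ) : Prop :=
  ‖1 - (⟨(xm : ℝ) / M * Real.cos (k / 64), -((xm : ℝ) / M * Real.sin (k / 64))⟩ : ℂ) * v⁻¹‖ ≤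
    Real.exp ((a : ℝ) / S * (‖v - R‖ - 1) - ((gp : ℝ) - gn) / S * (v⁻¹).re
      - ((dp : ℝ) - dn) / S * (v⁻¹).im - ((hp : ℝ) - hn) / S)

theorem yy_sq (x t : ℝ) : (x * Real.cos t) ^ 2 + (x * Real.sin t) ^ 2 = x ^ 2 := by
  have := Real.sin_sq_add_cos_sq t
  linear_combination x ^ 2 * this

theorem tl_sound (hM : 0 < M) {b : ℕ} (h : tl M a xm r1 gp gn dp dn hp hn b = true)
    {R : ℝ} {v : ℂ} (hR0 : 0 ≤ R) (hR1 : R ≤ r1 / M) (hv : 1 ≤ ‖v‖)
    (hB : (b : ℝ) / M ≤ ‖v - (R : ℂ)‖) : Pt M k xm a gp gn dp dn hp hn R v := by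
  have hMR : (0 : ℝ) < M := by exact_mod_cast hM
  have hS : (0 : ℝ) < S := by rw [S_cast]; norm_num
  unfold tl at h
  simp only [Nat.add_eq, Nat.mul_eq, Nat.sub_eq, Bool.and_eq_true] at h
  obtain ⟨h1, h2⟩ := h
  have h1 : r1 < b := Nat.blt_eq.mp h1
  have h2 := Nat.le_of_ble_eq_true h2
  have h1R : (r1 : ℝ) < b := by exact_mod_cast h1
  have h3 : ((xm * S * M + (gp + gn + (dp + dn)) * (M * M) + (a + hp) * M * (b - r1) : ℕ) : ℝ) ≤
      (((a * b + hn * M) * (b - r1) : ℕ) : ℝ) := by exact_mod_cast h2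
  push_cast [Nat.cast_sub h1.le] at h3
  have hg1 : |((gp : ℝ) - gn) / S| ≤ (gp + gn) / S := by
    rw [abs_div, abs_of_pos hS]
    apply div_le_div_of_nonneg_right _ hS.le
    have : (0 : ℝ) ≤ gp := Nat.cast_nonneg _
    have : (0 : ℝ) ≤ gn := Nat.cast_nonneg _
    rw [abs_le]
    constructor <;> linarith
  have hg2 : |((dp : ℝ) - dn) / S| ≤ (dp + dn) / S := by
    rw [abs_div, abs_of_pos hS]
    apply div_le_div_of_nonneg_right _ hS.le
    have : (0 : ℝ) ≤ dp := Nat.cast_nonneg _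
    have : (0 : ℝ) ≤ dn := Nat.cast_nonneg _
    rw [abs_le]
    constructor <;> linarith
  refine point_of_far (x := (xm : ℝ) / M) (Bm := (b : ℝ) / M) (R1 := (r1 : ℝ) / M) hv
    (by positivity) (by positivity) (yy_sq _ _) hR0 hR1 hB ?_ ?_
  · exact div_lt_div_of_pos_right h1R hMR
  · have e1 : ((a : ℝ) / S * ((b : ℝ) / M - 1) - ((hp : ℝ) - hn) / S) * (b / M - r1 / M) =
        (((a : ℝ) * b + hn * M) * (b - r1) - (a + hp) * M * (b - r1)) / (S * M ^ 2) := by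
      field_simp
      ring
    have e2 : (xm : ℝ) / M + ((gp : ℝ) + gn) / S + ((dp : ℝ) + dn) / S =
        (xm * S * M + (gp + gn + (dp + dn)) * (M * M)) / (S * M ^ 2) := by
      field_simp
      ring
    have e3 : (xm : ℝ) / M + ((gp : ℝ) + gn) / S + ((dp : ℝ) + dn) / S ≤
        ((a : ℝ) / S * ((b : ℝ) / M - 1) - ((hp : ℝ) - hn) / S) * (b / M - r1 / M) := by
      rw [e1, e2]
      apply div_le_div_of_nonneg_right _ (by positivity)
      linarith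
    linarith

theorem go_sound (hM : 0 < M) (hx : xm ≤ 4 * M) (hk : k ≤ 100) (hr : r0 ≤ r1)
    {R : ℝ} {v : ℂ} (hR0 : (r0 : ℝ) / M ≤ R) (hR1 : R ≤ r1 / M) (hv : 1 ≤ ‖v‖) :
    ∀ (f c b : ℕ), go M (M * M) (M * 1099511627776) (xm * cN k) (xm * sN k) (xm * xm * M) a xm
      r0 r1 gp gn dp dn hp hn (17825792 + 2 * hn) (2 * a + 2 * hp) f c b = true →
    (b : ℝ) / M ≤ ‖v - (R : ℂ)‖ → Pt M k xm a gp gn dp dn hp hn R v := by
  have hMR : (0 : ℝ) < M := by exact_mod_cast hM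
  have hS : (0 : ℝ) < S := by rw [S_cast]; norm_num
  have hR00 : 0 ≤ R := le_trans (by positivity) hR0
  intro f
  induction f with
  | zero =>
    intro c b h
    exact absurd h (by unfold go; simp)
  | succ f ih =>
    intro c b h hB
    have e : go M (M * M) (M * 1099511627776) (xm * cN k) (xm * sN k) (xm * xm * M) a xm
      r0 r1 gp gn dp dn hp hn (17825792 + 2 * hn) (2 * a + 2 * hp) (f + 1) c b =
      bif Nat.beq c 0 then tl M a xm r1 gp gn dp dn hp hn b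
      else
        ev (Nat.add b (Nat.mod (Nat.shiftRight c 20) 4096)) fun b1 =>
        Nat.blt (Nat.mod c 256) 209 &&
        (cel M (M * M) (M * 1099511627776) (xm * cN k) (xm * sN k) (xm * xm * M) (Nat.mul 2 a)
          r0 r1 gp gn dp dn (17825792 + 2 * hn) (2 * a + 2 * hp) b b1 (Nat.mod c 256)
          (Nat.mul (Nat.mod (Nat.shiftRight c 8) 4096) 16384) &&
        ev (Nat.shiftRight c 32) fun c' =>
        go M (M * M) (M * 1099511627776) (xm * cN k) (xm * sN k) (xm * xm * M) a xm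
          r0 r1 gp gn dp dn hp hn (17825792 + 2 * hn) (2 * a + 2 * hp) f c' b1) := rfl
    rw [e] at h
    cases hc : Nat.beq c 0 with
    | true =>
      rw [hc, cond_true] at h
      exact tl_sound hM h hR00 hR1 hv hB
    | false =>
      rw [hc, cond_false] at h
      simp only [ev_eq, Nat.add_eq, Nat.mul_eq, Bool.and_eq_true] at h
      obtain ⟨h1, h2, h3⟩ := h
      have h1 := Nat.blt_eq.mp h1
      obtain ⟨i, hi⟩ : ∃ i, i = Nat.mod c 256 := ⟨_, rfl⟩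
      obtain ⟨la, hla⟩ : ∃ la, la = Nat.mod (Nat.shiftRight c 8) 4096 * 16384 := ⟨_, rfl⟩
      obtain ⟨b1, hb1⟩ : ∃ b1, b1 = b + Nat.mod (Nat.shiftRight c 20) 4096 := ⟨_, rfl⟩
      rw [← hi] at h1
      rw [← hi, ← hla, ← hb1] at h2
      rw [← hb1] at h3
      rcases le_total ‖v - (R : ℂ)‖ ((b1 : ℝ) / M) with hle | hge
      · have hF := cel_sound hM hx hk hr (by rw [hb1]; exact Nat.le_add_right _ _) hB hle hR0 hR1 h2
        obtain ⟨hk0, hkl⟩ := tab_sound h1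
        have hκ : (0 : ℝ) < (kK i : ℝ) / S := by
          have : (0 : ℝ) < kK i := by exact_mod_cast hk0
          positivity
        exact point_of_FF (x := (xm : ℝ) / M) hv hκ hkl (by positivity) (yy_sq _ _) hF
      · exact ih _ _ h3 hge

/-- **soundness of the checker** -/
theorem ochk_sound {c : ℕ} (h : ochk M k xm r0 r1 a gp gn dp dn hp hn c = true) {R : ℝ}
    (hR0 : (r0 : ℝ) / M ≤ R) (hR1 : R ≤ r1 / M) :
    ODual R ((xm : ℝ) / M * Real.cos (k / 64)) ((xm : ℝ) / M * Real.sin (k / 64)) ((a : ℝ) / S)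
      (((gp : ℝ) - gn) / S) (((dp : ℝ) - dn) / S) (((hp : ℝ) - hn) / S) := by
  unfold ochk at h
  simp only [ev_eq, Nat.add_eq, Nat.mul_eq, Nat.sub_eq, Bool.and_eq_true, Nat.ble_eq] at h
  obtain ⟨⟨hM, hx, hr, hk⟩, hg⟩ := h
  have hM : 0 < M := hM
  have hMR : (0 : ℝ) < M := by exact_mod_cast hM
  have hS : (0 : ℝ) < S := by rw [S_cast]; norm_num
  refine ⟨by positivity, fun v hv => ?_⟩
  have hR00 : 0 ≤ R := le_trans (by positivity) hR0
  refine go_sound hM hx hk hr hR0 hR1 hv 100 c (M - r1) hg ?_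
  have h1 : 1 - R ≤ ‖v - (R : ℂ)‖ := by
    have h2 : ‖v‖ ≤ ‖v - (R : ℂ)‖ + R := by
      calc ‖v‖ = ‖(v - (R : ℂ)) + (R : ℂ)‖ := by rw [sub_add_cancel]
        _ ≤ ‖v - (R : ℂ)‖ + ‖(R : ℂ)‖ := norm_add_le _ _
        _ = _ := by rw [Complex.norm_real, Real.norm_of_nonneg hR00]
    linarith
  rcases le_total M r1 with h3 | h3
  · rw [Nat.sub_eq_zero_of_le h3, Nat.cast_zero, zero_div]
    exact norm_nonneg _
  · rw [Nat.cast_sub h3, sub_div, div_self hMR.ne']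
    linarith

end

/-- the direction `e^{-iθ}` -/
theorem dir_eq (x θ : ℝ) : (x : ℂ) * Complex.exp (-(θ : ℂ) * Complex.I) =
    ⟨x * Real.cos θ, -(x * Real.sin θ)⟩ := by
  have h1 : Complex.exp (-(θ : ℂ) * Complex.I) =
      ((Real.cos θ : ℝ) : ℂ) - ((Real.sin θ : ℝ) : ℂ) * Complex.I := by
    rw [Complex.exp_mul_I, Complex.cos_neg, Complex.sin_neg, Complex.ofReal_cos,
      Complex.ofReal_sin]
    ring
  rw [h1]
  apply Complex.ext
  · rw [Complex.re_ofReal_mul, Complex.sub_re, Complex.ofReal_re, Complex.re_ofReal_mul,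
      Complex.I_re, mul_zero, sub_zero]
  · rw [Complex.im_ofReal_mul, Complex.sub_im, Complex.ofReal_im, Complex.im_ofReal_mul,
      Complex.I_im, mul_one, zero_sub, mul_neg]

/-- **the bound for `q` at a node** -/
theorem ochk_qq {M k xm r0 r1 a gp gn dp dn hp hn c : ℕ}
    (h : ochk M k xm r0 r1 a gp gn dp dn hp hn c = true) {N : ℕ} (hN : 1 ≤ N)
    {w : Fin N → ℂ} {R : ℝ} (hR0 : (r0 : ℝ) / M ≤ R) (hR1 : R ≤ r1 / M) (hw : ∀ k, 1 ≤ ‖w k‖)
    (ht : ∑ k, ‖w k - (R : ℂ)‖ ≤ N) :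
    ‖qq (ru w (Complex.exp (-(((k : ℝ) / 64 : ℝ) : ℂ) * Complex.I))) ((xm : ℝ) / M)‖ ≤
      Real.exp (-(N * (((hp : ℝ) - hn) / S + ((gp : ℝ) - gn) / S * (av (uu w)).re
        + ((dp : ℝ) - dn) / S * (av (uu w)).im))) :=
  (ochk_sound h hR0 hR1).qq_le hN (dir_eq _ _) hw ht

/-- **the bound for `q` between two nodes**: the chord of the two bounds -/
theorem ochk_pair {M k xm xm' r0 r1 a gp gn dp dn hp hn hp' hn' c c' : ℕ}
    (h : ochk M k xm r0 r1 a gp gn dp dn hp hn c = true)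
    (h' : ochk M k xm' r0 r1 a gp gn dp dn hp' hn' c' = true) {N : ℕ} (hN : 1 ≤ N)
    {w : Fin N → ℂ} {R t : ℝ} (hR0 : (r0 : ℝ) / M ≤ R) (hR1 : R ≤ r1 / M) (hw : ∀ k, 1 ≤ ‖w k‖)
    (ht : ∑ k, ‖w k - (R : ℂ)‖ ≤ N) (ht0 : 0 ≤ t) (ht1 : t ≤ 1) :
    ‖qq (ru w (Complex.exp (-(((k : ℝ) / 64 : ℝ) : ℂ) * Complex.I)))
      ((1 - t) * ((xm : ℝ) / M) + t * ((xm' : ℝ) / M))‖ ≤
      (1 - t) * Real.exp (-(N * (((hp : ℝ) - hn) / S + ((gp : ℝ) - gn) / S * (av (uu w)).re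
        + ((dp : ℝ) - dn) / S * (av (uu w)).im))) +
      t * Real.exp (-(N * (((hp' : ℝ) - hn') / S + ((gp : ℝ) - gn) / S * (av (uu w)).re
        + ((dp : ℝ) - dn) / S * (av (uu w)).im))) :=
  (ochk_sound h hR0 hR1).pair hN (ochk_sound h' hR0 hR1) (dir_eq _ _) (dir_eq _ _) hw ht ht0 ht1

end Pool.Agent.Lib.MP_af3a4a_an.P1.CHK.H74
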