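import Pool.Agent.Lib.MP_af3a4a_an.P1.CHK.H74.OffPoint

set_option autoImplicit false

/-!
# Off-ray duals, part B: interpolation of `FF` on a rectangle in `(B, R)` (council 2, helper74)
-/

namespace Pool.Agent.Lib.MP_af3a4a_an.P1.CHK.H74

theorem norm_mk_comb {t x y x' y' : ℝ} (h0 : 0 ≤ t) (h1 : t ≤ 1) :
    ‖(⟨(1 - t) * x + t * x', (1 - t) * y + t * y'⟩ : ℂ)‖ ≤
      (1 - t) * ‖(⟨x, y⟩ : ℂ)‖ + t * ‖(⟨x', y'⟩ : ℂ)‖ := by
  have e : (⟨(1 - t) * x + t * x', (1 - t) * y + t * y'⟩ : ℂ) =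
      ((1 - t : ℝ) : ℂ) * ⟨x, y⟩ + ((t : ℝ) : ℂ) * ⟨x', y'⟩ := by
    apply Complex.ext
    · simp
    · simp
  rw [e]
  refine (norm_add_le _ _).trans (le_of_eq ?_)
  rw [norm_mul, norm_mul, Complex.norm_real, Complex.norm_real,
    Real.norm_of_nonneg (by linarith), Real.norm_of_nonneg h0]

theorem norm_mk_sub {x y d : ℝ} (hd : 0 ≤ d) :
    ‖(⟨x - d, y⟩ : ℂ)‖ ≤ ‖(⟨x, y⟩ : ℂ)‖ + d := by
  have e : (⟨x - d, y⟩ : ℂ) = ⟨x, y⟩ - ((d : ℝ) : ℂ) := by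
    apply Complex.ext <;> simp
  rw [e]
  refine (norm_sub_le _ _).trans (le_of_eq ?_)
  rw [Complex.norm_real, Real.norm_of_nonneg hd]

theorem norm_mk_add {x y d e : ℝ} :
    ‖(⟨x + d, y + e⟩ : ℂ)‖ ≤ ‖(⟨x, y⟩ : ℂ)‖ + (|d| + |e|) := by
  have h : (⟨x + d, y + e⟩ : ℂ) = ⟨x, y⟩ + ⟨d, e⟩ := by
    apply Complex.ext <;> simp
  rw [h]
  refine (norm_add_le _ _).trans ?_
  have := Complex.norm_le_abs_re_add_abs_im (⟨d, e⟩ : ℂ)
  simpa using this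

/-- `t (1 - t) ≤ 1/4` -/
theorem quarter {t m c : ℝ} (hc : c ≤ m) (hm : 0 ≤ m) (h0 : 0 ≤ t) (h1 : t ≤ 1) :
    t * (1 - t) * c ≤ m / 4 := by
  have h2 : 0 ≤ t * (1 - t) := mul_nonneg h0 (by linarith)
  have h3 : t * (1 - t) ≤ 1 / 4 := by nlinarith [sq_nonneg (t - 1 / 2)]
  calc t * (1 - t) * c ≤ t * (1 - t) * m := mul_le_mul_of_nonneg_left hc h2
    _ ≤ 1 / 4 * m := mul_le_mul_of_nonneg_right h3 hm
    _ = m / 4 := by ring

section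

variable {α γ c1 a2 q K lam : ℝ}

/-- interpolation in `R` -/
theorem FF_R {B R0 R1 t e M : ℝ} (hα : 0 ≤ α) (hM0 : 0 ≤ M) (hM : 2 * α * B + K ≤ M)
    (h0 : 0 ≤ t) (h1 : t ≤ 1)
    (e0 : e ≤ FF α γ c1 a2 q K lam B R0) (e1 : e ≤ FF α γ c1 a2 q K lam B R1) :
    e - M * (R1 - R0) ^ 2 / 4 ≤ FF α γ c1 a2 q K lam B ((1 - t) * R0 + t * R1) := by
  have hn := norm_mk_comb (x := B * a1 α γ c1 K B R0) (y := B * a2)
    (x' := B * a1 α γ c1 K B R1) (y' := B * a2) h0 h1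
  have ev : (⟨B * a1 α γ c1 K B ((1 - t) * R0 + t * R1), B * a2⟩ : ℂ) =
      ⟨(1 - t) * (B * a1 α γ c1 K B R0) + t * (B * a1 α γ c1 K B R1),
        (1 - t) * (B * a2) + t * (B * a2)⟩ := by
    apply Complex.ext
    · simp only [a1]
      ring
    · simp only
      ring
  have eA : A0 α γ c1 q K lam B ((1 - t) * R0 + t * R1) =
      (1 - t) * A0 α γ c1 q K lam B R0 + t * A0 α γ c1 q K lam B R1
        - t * (1 - t) * ((2 * α * B + K) * (R1 - R0) ^ 2) := by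
    unfold A0
    ring
  have hq := quarter (t := t) (m := M * (R1 - R0) ^ 2) (c := (2 * α * B + K) * (R1 - R0) ^ 2)
    (mul_le_mul_of_nonneg_right hM (sq_nonneg _)) (mul_nonneg hM0 (sq_nonneg _)) h0 h1
  unfold FF at e0 e1 ⊢
  rw [ev, eA]
  have f0 := mul_le_mul_of_nonneg_left e0 (by linarith : (0 : ℝ) ≤ 1 - t)
  have f1 := mul_le_mul_of_nonneg_left e1 h0
  linarith

/-- interpolation in `B` -/
theorem FF_B {B0 B1 R t e M : ℝ} (hα : 0 ≤ α) (hR : 0 ≤ R) (hB : B0 ≤ B1) (hM0 : 0 ≤ M)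
    (hM : 6 * α * B1 + K ≤ M) (h0 : 0 ≤ t) (h1 : t ≤ 1)
    (e0 : e ≤ FF α γ c1 a2 q K lam B0 R) (e1 : e ≤ FF α γ c1 a2 q K lam B1 R) :
    e - (M + 4 * α * R) * (B1 - B0) ^ 2 / 4 ≤
      FF α γ c1 a2 q K lam ((1 - t) * B0 + t * B1) R := by
  have hn := norm_mk_comb (x := B0 * a1 α γ c1 K B0 R) (y := B0 * a2)
    (x' := B1 * a1 α γ c1 K B1 R) (y' := B1 * a2) h0 h1
  have hd0 : 0 ≤ t * (1 - t) * (2 * α * R * (B1 - B0) ^ 2) := by
    apply mul_nonneg (mul_nonneg h0 (by linarith))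
    positivity
  have ev : (⟨((1 - t) * B0 + t * B1) * a1 α γ c1 K ((1 - t) * B0 + t * B1) R,
        ((1 - t) * B0 + t * B1) * a2⟩ : ℂ) =
      ⟨((1 - t) * (B0 * a1 α γ c1 K B0 R) + t * (B1 * a1 α γ c1 K B1 R)) -
          t * (1 - t) * (2 * α * R * (B1 - B0) ^ 2),
        (1 - t) * (B0 * a2) + t * (B1 * a2)⟩ := by
    apply Complex.ext
    · simp only [a1]
      ring
    · simp only
      ring
  have hs := norm_mk_sub (x := (1 - t) * (B0 * a1 α γ c1 K B0 R) + t * (B1 * a1 α γ c1 K B1 R))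
    (y := (1 - t) * (B0 * a2) + t * (B1 * a2)) hd0
  have eA : A0 α γ c1 q K lam ((1 - t) * B0 + t * B1) R =
      (1 - t) * A0 α γ c1 q K lam B0 R + t * A0 α γ c1 q K lam B1 R
        - t * (1 - t) * ((2 * α * (B0 + B1 + ((1 - t) * B0 + t * B1)) + K) * (B1 - B0) ^ 2) := by
    unfold A0
    ring
  have hc : 2 * α * (B0 + B1 + ((1 - t) * B0 + t * B1)) + K ≤ M := by
    have h2 : (1 - t) * B0 + t * B1 ≤ B1 := by nlinarith
    have h3 : 2 * α * (B0 + B1 + ((1 - t) * B0 + t * B1)) ≤ 2 * α * (3 * B1) :=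
      mul_le_mul_of_nonneg_left (by linarith) (by linarith)
    linarith
  have hq := quarter (t := t) (m := M * (B1 - B0) ^ 2)
    (c := (2 * α * (B0 + B1 + ((1 - t) * B0 + t * B1)) + K) * (B1 - B0) ^ 2)
    (mul_le_mul_of_nonneg_right hc (sq_nonneg _)) (mul_nonneg hM0 (sq_nonneg _)) h0 h1
  have hq2 := quarter (t := t) (m := 2 * α * R * (B1 - B0) ^ 2)
    (c := 2 * α * R * (B1 - B0) ^ 2) le_rfl (by positivity) h0 h1
  unfold FF at e0 e1 ⊢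
  rw [ev, eA]
  have f0 := mul_le_mul_of_nonneg_left e0 (by linarith : (0 : ℝ) ≤ 1 - t)
  have f1 := mul_le_mul_of_nonneg_left e1 h0
  linarith

/-- the parameter of a point of an interval -/
theorem exists_t {a b x : ℝ} (h0 : a ≤ x) (h1 : x ≤ b) :
    ∃ t : ℝ, 0 ≤ t ∧ t ≤ 1 ∧ (1 - t) * a + t * b = x := by
  rcases h0.eq_or_lt with h | h
  · exact ⟨0, le_rfl, by norm_num, by rw [h]; ring⟩
  · have hab : 0 < b - a := by linarith
    refine ⟨(x - a) / (b - a), div_nonneg (by linarith) hab.le, ?_, ?_⟩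
    · rw [div_le_one hab]
      linarith
    · field_simp
      ring

/-- **the rectangle** -/
theorem FF_cell {B0 B1 R0 R1 B R e M1 M2 : ℝ} (hα : 0 ≤ α) (hR0 : 0 ≤ R0)
    (hB : B0 ≤ B) (hB' : B ≤ B1) (hR : R0 ≤ R) (hR' : R ≤ R1)
    (hM1 : 0 ≤ M1) (hM1' : 6 * α * B1 + K ≤ M1) (hM2 : 0 ≤ M2) (hM2' : 2 * α * B1 + K ≤ M2)
    (e00 : e ≤ FF α γ c1 a2 q K lam B0 R0) (e01 : e ≤ FF α γ c1 a2 q K lam B0 R1)
    (e10 : e ≤ FF α γ c1 a2 q K lam B1 R0) (e11 : e ≤ FF α γ c1 a2 q K lam B1 R1) :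
    e - (M1 + 4 * α * R1) * (B1 - B0) ^ 2 / 4 - M2 * (R1 - R0) ^ 2 / 4 ≤
      FF α γ c1 a2 q K lam B R := by
  obtain ⟨t, ht0, ht1, ht⟩ := exists_t hR hR'
  obtain ⟨s, hs0, hs1, hs⟩ := exists_t hB hB'
  have hBB : B0 ≤ B1 := hB.trans hB'
  have g0 := FF_R (B := B0) (R0 := R0) (R1 := R1) hα hM2
    (le_trans (by nlinarith) hM2') ht0 ht1 e00 e01
  have g1 := FF_R (B := B1) (R0 := R0) (R1 := R1) hα hM2 hM2' ht0 ht1 e10 e11
  rw [ht] at g0 g1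
  have g2 := FF_B (B0 := B0) (B1 := B1) (R := R) hα (hR0.trans hR) hBB hM1 hM1' hs0 hs1 g0 g1
  rw [hs] at g2
  have h3 : (M1 + 4 * α * R) * (B1 - B0) ^ 2 ≤ (M1 + 4 * α * R1) * (B1 - B0) ^ 2 := by
    apply mul_le_mul_of_nonneg_right _ (sq_nonneg _)
    have : 4 * α * R ≤ 4 * α * R1 := mul_le_mul_of_nonneg_left hR' (by linarith)
    linarith
  linarith

/-- change of the constants `c₁` and `a₂` -/
theorem FF_perturb {B R c1' a2' ε : ℝ} (hB : 0 ≤ B) (hR : 0 ≤ R) (h1 : |c1' - c1| ≤ ε)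
    (h2 : |a2' - a2| ≤ ε) :
    FF α γ c1 a2 q K lam B R - ε * (2 * R + 4 * B) ≤ FF α γ c1' a2' q K lam B R := by
  have ev : (⟨B * a1 α γ c1' K B R, B * a2'⟩ : ℂ) =
      ⟨B * a1 α γ c1 K B R + B * (c1' - c1), B * a2 + B * (a2' - a2)⟩ := by
    apply Complex.ext
    · simp only [a1]
      ring
    · simp only
      ring
  have hn := norm_mk_add (x := B * a1 α γ c1 K B R) (y := B * a2) (d := B * (c1' - c1))
    (e := B * (a2' - a2))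
  rw [abs_mul, abs_mul, abs_of_nonneg hB] at hn
  have eA : A0 α γ c1' q K lam B R = A0 α γ c1 q K lam B R + 2 * R * (c1' - c1) := by
    unfold A0
    ring
  have h3 : -(2 * R * ε) ≤ 2 * R * (c1' - c1) := by
    have := mul_le_mul_of_nonneg_left (abs_le.1 h1).1 (by linarith : (0 : ℝ) ≤ 2 * R)
    linarith
  have h4 : B * |c1' - c1| ≤ B * ε := mul_le_mul_of_nonneg_left h1 hB
  have h5 : B * |a2' - a2| ≤ B * ε := mul_le_mul_of_nonneg_left h2 hB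
  unfold FF
  rw [ev, eA]
  linarith

end

end Pool.Agent.Lib.MP_af3a4a_an.P1.CHK.H74
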