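import Pool.Agent.Lib.MP_af3a4a_an.P1.CHK.H58.Defs
import Pool.Agent.Lib.MP_af3a4a_an.P1.CHK.Curve.Tab

set_option autoImplicit false

/-!
# Off-ray duals, part C: the checker (council 2, helper74)

Units: `R`, `B`, `x` in `1/M`; `α`, `|γ|`, `|δ|`, `|h|`, `κ`, `la` in `1/S`, `S = 2^20`; the angle is
`k/64`. A dual is verified on `r0 ≤ R ≤ r1` by a list of intervals for `B`, 32 bits per interval:
index of `κ` (8 bits), `la` in `1/64` (12 bits), step of `B` (12 bits), lowest bits first.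
-/

namespace Pool.Agent.Lib.MP_af3a4a_an.P1.CHK.H74

open Pool.Agent.Lib.MP_af3a4a_an.P1.CHK.H58 (S kK kL)
open Pool.Agent.Lib.MP_af3a4a_an.P1.CHK.Arith (ev)
open Pool.Agent.Lib.MP_af3a4a_an.P1.CHK.Curve (cN sN)

/-- one corner: `t = 2 α b + kp M`, `u = kn M` -/
def crn (r b t u G1 G2 V22 Lm XE : ℕ) : Bool :=
  ev (Nat.add (Nat.mul r r) (Nat.mul b b)) fun s =>
  ev (Nat.add (Nat.mul r t) G1) fun p =>
  ev (Nat.add (Nat.mul r u) G2) fun n =>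
  Nat.blt
    (Nat.mul (Nat.mul 4 (Nat.mul b b))
      (Nat.add (Nat.pow (Nat.add (Nat.sub p n) (Nat.sub n p)) 2) V22))
    (Nat.pow (Nat.sub (Nat.add (Nat.mul s t) (Nat.add (Nat.mul 2 (Nat.mul r G1)) Lm))
      (Nat.add (Nat.mul s u) (Nat.add (Nat.mul 2 (Nat.mul r G2)) XE))) 2)

/-- the four corners -/
def crn4 (r0 r1 b0 b1 a2 kpM u G1 G2 V22 Lm XE : ℕ) : Bool :=
  ev (Nat.add (Nat.mul a2 b0) kpM) fun t0 =>
  ev (Nat.add (Nat.mul a2 b1) kpM) fun t1 =>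
  (crn r0 b0 t0 u G1 G2 V22 Lm XE && crn r1 b0 t0 u G1 G2 V22 Lm XE) &&
  (crn r0 b1 t1 u G1 G2 V22 Lm XE && crn r1 b1 t1 u G1 G2 V22 Lm XE)

/-- the correction -/
def err (M MM a2 r0 r1 b0 b1 kpM u : ℕ) : ℕ :=
  Nat.add (Nat.div (Nat.add
    (Nat.mul (Nat.add (Nat.sub (Nat.add (Nat.mul 3 (Nat.mul a2 b1)) kpM) u)
      (Nat.mul 2 (Nat.mul a2 r1))) (Nat.pow (Nat.sub b1 b0) 2))
    (Nat.mul (Nat.sub (Nat.add (Nat.mul a2 b1) kpM) u) (Nat.pow (Nat.sub r1 r0) 2))) 4)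
    (Nat.add 1 (Nat.mul MM (Nat.add (Nat.mul 4 r1) (Nat.mul 8 b1))))

/-- one interval for `B` -/
def cel (M MM D1 XC XS X2 a2 r0 r1 gp gn dp dn kpos kng : ℕ) (b0 b1 i la : ℕ) : Bool :=
  ev (kK i) fun kap =>
  ev (Nat.add kng (Nat.add (kL i) (Nat.add kap la))) fun kneg =>
  ev (Nat.mul (Nat.sub kpos kneg) M) fun kpM =>
  ev (Nat.mul (Nat.sub kneg kpos) M) fun u =>
  ev (Nat.mul (Nat.add (Nat.div (Nat.mul kap XC) D1) gn) MM) fun G1 =>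
  ev (Nat.mul gp MM) fun G2 =>
  ev (Nat.div (Nat.mul kap XS) D1) fun q2 =>
  ev (Nat.pow (Nat.mul (Nat.add (Nat.sub dp (Nat.add dn q2)) (Nat.sub (Nat.add dn q2) dp)) MM) 2)
    fun V22 =>
  ev (Nat.mul la (Nat.mul M MM)) fun Lm =>
  ev (Nat.add (Nat.mul kap X2) (err M MM a2 r0 r1 b0 b1 kpM u)) fun XE =>
  crn4 r0 r1 b0 b1 a2 kpM u G1 G2 V22 Lm XE

/-- far region -/
def tl (M a xm r1 gp gn dp dn hp hn b : ℕ) : Bool :=
  Nat.blt r1 b && Nat.ble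
    (Nat.add (Nat.add (Nat.mul (Nat.mul xm S) M)
      (Nat.mul (Nat.add (Nat.add gp gn) (Nat.add dp dn)) (Nat.mul M M)))
      (Nat.mul (Nat.mul (Nat.add a hp) M) (Nat.sub b r1)))
    (Nat.mul (Nat.add (Nat.mul a b) (Nat.mul hn M)) (Nat.sub b r1))

/-- the loop -/
def go (M MM D1 XC XS X2 a xm r0 r1 gp gn dp dn hp hn kpos kng : ℕ) : ℕ → ℕ → ℕ → Bool
  | 0, _, _ => false
  | f + 1, c, b =>
    bif Nat.beq c 0 then tl M a xm r1 gp gn dp dn hp hn b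
    else
      ev (Nat.add b (Nat.mod (Nat.shiftRight c 20) 4096)) fun b1 =>
      Nat.blt (Nat.mod c 256) 209 &&
      (cel M MM D1 XC XS X2 (Nat.mul 2 a) r0 r1 gp gn dp dn kpos kng b b1 (Nat.mod c 256)
        (Nat.mul (Nat.mod (Nat.shiftRight c 8) 4096) 16384) &&
      ev (Nat.shiftRight c 32) fun c' =>
      go M MM D1 XC XS X2 a xm r0 r1 gp gn dp dn hp hn kpos kng f c' b1)

/-- the check of one dual at one node -/
def ochk (M k xm r0 r1 a gp gn dp dn hp hn c : ℕ) : Bool :=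
  (Nat.ble 1 M && (Nat.ble xm (Nat.mul 4 M) && (Nat.ble r0 r1 && Nat.ble k 100))) &&
  ev (Nat.mul M M) fun MM =>
  ev (Nat.mul M 1099511627776) fun D1 =>
  ev (Nat.mul xm (cN k)) fun XC =>
  ev (Nat.mul xm (sN k)) fun XS =>
  ev (Nat.mul (Nat.mul xm xm) M) fun X2 =>
  ev (Nat.add 17825792 (Nat.mul 2 hn)) fun kpos =>
  ev (Nat.add (Nat.mul 2 a) (Nat.mul 2 hp)) fun kng =>
  go M MM D1 XC XS X2 a xm r0 r1 gp gn dp dn hp hn kpos kng 100 c (Nat.sub M r1)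

end Pool.Agent.Lib.MP_af3a4a_an.P1.CHK.H74
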