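import Pool.Agent.Lib.MP_af3a4a_an.P1.H80.OffRay
import Pool.Agent.Lib.MP_af3a4a_an.P1.H74.V2

set_option autoImplicit false

/-!
# Off-ray duals, part A: the pointwise inequality and the mean (council 2, helper74)

`y = x e^{-iθ} = y₁ - i y₂`. The dual inequality at `y` with three multipliers:
`|1 - y / w| ≤ exp (α (|w - R| - 1) - γ Re (1/w) - δ Im (1/w) - h)` for all `|w| ≥ 1`.
With `B = |w - R|` the polynomial form is linear in `(w - R)/B` on the circle, so that its minimum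
over the direction is exact.
-/

namespace Pool.Agent.Lib.MP_af3a4a_an.P1.CHK.H74

open Finset ComplexConjugate
open Pool.Agent.Lib.MP_af3a4a_an.SV (uu av)
open Pool.Agent.Lib.MP_af3a4a_an.P1.H80

/-- the dual inequality at `y = y₁ - i y₂` -/
structure ODual (R y1 y2 α γ δ h : ℝ) : Prop where
  nonneg : 0 ≤ α
  le : ∀ v : ℂ, 1 ≤ ‖v‖ →
    ‖1 - (⟨y1, -y2⟩ : ℂ) * v⁻¹‖ ≤
      Real.exp (α * (‖v - R‖ - 1) - γ * (v⁻¹).re - δ * (v⁻¹).im - h)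

/-- constant part -/
noncomputable def A0 (α γ c1 q K lam B R : ℝ) : ℝ :=
  (R ^ 2 + B ^ 2) * (2 * α * B + K) - 2 * γ * R + 2 * c1 * R - q + lam

/-- real part of the direction coefficient -/
noncomputable def a1 (α γ c1 K B R : ℝ) : ℝ := R * (2 * α * B + K) - γ + c1

/-- the minimum over the direction -/
noncomputable def FF (α γ c1 a2 q K lam B R : ℝ) : ℝ :=
  A0 α γ c1 q K lam B R - 2 * ‖(⟨B * a1 α γ c1 K B R, B * a2⟩ : ℂ)‖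

theorem inner_le {p q a b B : ℝ} (hB : 0 ≤ B) (hpq : p ^ 2 + q ^ 2 = B ^ 2) :
    -‖(⟨B * a, B * b⟩ : ℂ)‖ ≤ a * p + b * q := by
  have h1 : ‖(⟨B * a, B * b⟩ : ℂ)‖ = B * Real.sqrt (a ^ 2 + b ^ 2) := by
    have h2 : ‖(⟨B * a, B * b⟩ : ℂ)‖ ^ 2 = (B * Real.sqrt (a ^ 2 + b ^ 2)) ^ 2 := by
      rw [← Complex.normSq_eq_norm_sq, Complex.normSq_apply, mul_pow,
        Real.sq_sqrt (by positivity)]
      ring
    have h3 : 0 ≤ B * Real.sqrt (a ^ 2 + b ^ 2) := mul_nonneg hB (Real.sqrt_nonneg _)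
    exact (sq_eq_sq₀ (norm_nonneg _) h3).1 h2
  rw [h1]
  have h4 : |a * p + b * q| ≤ B * Real.sqrt (a ^ 2 + b ^ 2) := by
    apply Real.abs_le_sqrt_mul_sqrt' hB hpq
  exact (abs_le.1 h4).1
where
  Real.abs_le_sqrt_mul_sqrt' {p q a b B : ℝ} (hB : 0 ≤ B) (hpq : p ^ 2 + q ^ 2 = B ^ 2) :
      |a * p + b * q| ≤ B * Real.sqrt (a ^ 2 + b ^ 2) := by
    have h0 : 0 ≤ B * Real.sqrt (a ^ 2 + b ^ 2) := mul_nonneg hB (Real.sqrt_nonneg _)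
    rw [← abs_of_nonneg h0]
    apply abs_le_abs_of_sq_le_sq
    rw [mul_pow, Real.sq_sqrt (by positivity), ← hpq]
    nlinarith [sq_nonneg (a * q - b * p)]
  abs_le_abs_of_sq_le_sq {x y : ℝ} (h : x ^ 2 ≤ y ^ 2) : |x| ≤ |y| := sq_le_sq.1 h

/-- from the polynomial to the exponential -/
theorem point_of_FF {R y1 y2 α γ δ h κ L lam x : ℝ} {v : ℂ} (hv : 1 ≤ ‖v‖) (hκ : 0 < κ)
    (hL : -Real.log κ ≤ L) (hlam : 0 ≤ lam) (hy : y1 ^ 2 + y2 ^ 2 = x ^ 2)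
    (hF : 0 ≤ FF α γ (κ * y1) (δ - κ * y2) (κ * x ^ 2)
      (-2 * α - 2 * h + 1 - L - κ - lam) lam ‖v - (R : ℂ)‖ R) :
    ‖1 - (⟨y1, -y2⟩ : ℂ) * v⁻¹‖ ≤
      Real.exp (α * (‖v - R‖ - 1) - γ * (v⁻¹).re - δ * (v⁻¹).im - h) := by
  have hv0 : v ≠ 0 := by
    intro h0
    rw [h0, norm_zero] at hv
    linarith
  have hB0 := norm_nonneg (v - (R : ℂ))
  have hs : ‖v‖ ^ 2 = v.re ^ 2 + v.im ^ 2 := norm_sq_re_im v
  have hBs : ‖v - (R : ℂ)‖ ^ 2 = (v.re - R) ^ 2 + v.im ^ 2 := by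
    rw [norm_sq_re_im]
    simp
  have hs1 : 1 ≤ v.re ^ 2 + v.im ^ 2 := by
    rw [← hs]
    nlinarith
  have hspos : 0 < v.re ^ 2 + v.im ^ 2 := by linarith
  have hre : (v⁻¹).re = v.re / (v.re ^ 2 + v.im ^ 2) := by
    rw [Complex.inv_re, Complex.normSq_eq_norm_sq, hs]
  have him : (v⁻¹).im = -v.im / (v.re ^ 2 + v.im ^ 2) := by
    rw [Complex.inv_im, Complex.normSq_eq_norm_sq, hs]
  have hT : ‖1 - (⟨y1, -y2⟩ : ℂ) * v⁻¹‖ ^ 2 =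
      ((v.re - y1) ^ 2 + (v.im + y2) ^ 2) / (v.re ^ 2 + v.im ^ 2) := by
    have h1 : 1 - (⟨y1, -y2⟩ : ℂ) * v⁻¹ = (v - (⟨y1, -y2⟩ : ℂ)) * v⁻¹ := by
      rw [sub_mul, mul_inv_cancel₀ hv0]
    rw [h1, norm_mul, norm_inv, mul_pow, inv_pow, hs, norm_sq_re_im]
    simp only [Complex.sub_re, Complex.sub_im]
    rw [div_eq_mul_inv]
    ring
  rw [hre, him]
  obtain ⟨B, hB⟩ : ∃ B, B = ‖v - (R : ℂ)‖ := ⟨_, rfl⟩
  obtain ⟨T, hTd⟩ : ∃ T, T = ‖1 - (⟨y1, -y2⟩ : ℂ) * v⁻¹‖ := ⟨_, rfl⟩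
  rw [← hB] at hF hB0 hBs ⊢
  rw [← hTd] at hT ⊢
  obtain ⟨X, hX⟩ : ∃ X, X = v.re := ⟨_, rfl⟩
  obtain ⟨Y, hY⟩ : ∃ Y, Y = v.im := ⟨_, rfl⟩
  rw [← hX, ← hY] at hT hBs hs1 hspos ⊢
  have hT0 : 0 ≤ T := by
    rw [hTd]
    exact norm_nonneg _
  -- `T ^ 2 ≤ exp (κ T^2 - 1 + L)`
  have h1 : T ^ 2 ≤ Real.exp (κ * T ^ 2 - 1 + L) := by
    have h2 : κ * T ^ 2 ≤ Real.exp (κ * T ^ 2 - 1) := by
      have := Real.add_one_le_exp (κ * T ^ 2 - 1)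
      linarith
    have h3 : 1 ≤ κ * Real.exp L := by
      have h4 : Real.exp (-Real.log κ) ≤ Real.exp L := Real.exp_le_exp.2 hL
      rw [Real.exp_neg, Real.exp_log hκ] at h4
      calc (1 : ℝ) = κ * κ⁻¹ := (mul_inv_cancel₀ hκ.ne').symm
        _ ≤ κ * Real.exp L := mul_le_mul_of_nonneg_left h4 hκ.le
    rw [Real.exp_add]
    have h5 : 0 < Real.exp L := Real.exp_pos L
    calc T ^ 2 = 1 * T ^ 2 := (one_mul _).symm
      _ ≤ κ * Real.exp L * T ^ 2 := mul_le_mul_of_nonneg_right h3 (sq_nonneg T)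
      _ = κ * T ^ 2 * Real.exp L := by ring
      _ ≤ Real.exp (κ * T ^ 2 - 1) * Real.exp L := mul_le_mul_of_nonneg_right h2 h5.le
  have h6 : κ * T ^ 2 - 1 + L ≤ 2 * (α * (B - 1) - γ * (X / (X ^ 2 + Y ^ 2))
      - δ * (-Y / (X ^ 2 + Y ^ 2)) - h) := by
    rw [hT]
    have h7 : 0 ≤ (2 * (α * (B - 1) - γ * (X / (X ^ 2 + Y ^ 2))
        - δ * (-Y / (X ^ 2 + Y ^ 2)) - h) -
        (κ * (((X - y1) ^ 2 + (Y + y2) ^ 2) / (X ^ 2 + Y ^ 2)) - 1 + L)) * (X ^ 2 + Y ^ 2) := by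
      have h8 : (2 * (α * (B - 1) - γ * (X / (X ^ 2 + Y ^ 2))
          - δ * (-Y / (X ^ 2 + Y ^ 2)) - h) -
          (κ * (((X - y1) ^ 2 + (Y + y2) ^ 2) / (X ^ 2 + Y ^ 2)) - 1 + L)) * (X ^ 2 + Y ^ 2) =
          (X ^ 2 + Y ^ 2) * (2 * α * (B - 1) - 2 * h + 1 - L) - 2 * γ * X + 2 * δ * Y
            - κ * ((X - y1) ^ 2 + (Y + y2) ^ 2) := by
        field_simp
        ring
      have h9 : (X ^ 2 + Y ^ 2) * (2 * α * (B - 1) - 2 * h + 1 - L) - 2 * γ * X + 2 * δ * Y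
            - κ * ((X - y1) ^ 2 + (Y + y2) ^ 2) =
          A0 α γ (κ * y1) (κ * x ^ 2) (-2 * α - 2 * h + 1 - L - κ - lam) lam B R
            + 2 * (a1 α γ (κ * y1) (-2 * α - 2 * h + 1 - L - κ - lam) B R * (X - R)
              + (δ - κ * y2) * Y)
            + lam * (X ^ 2 + Y ^ 2 - 1) := by
        unfold A0 a1
        have hXY : X ^ 2 + Y ^ 2 = R ^ 2 + 2 * R * (X - R) + B ^ 2 := by
          rw [hBs]
          ring
        have e1 : (X - y1) ^ 2 + (Y + y2) ^ 2 =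
            (X ^ 2 + Y ^ 2) - 2 * X * y1 + 2 * Y * y2 + x ^ 2 := by
          rw [← hy]
          ring
        rw [e1, hXY]
        ring
      rw [h8, h9]
      have h10 := inner_le (a := a1 α γ (κ * y1) (-2 * α - 2 * h + 1 - L - κ - lam) B R)
        (b := δ - κ * y2) hB0 hBs.symm
      have h11 : 0 ≤ lam * (X ^ 2 + Y ^ 2 - 1) := mul_nonneg hlam (by linarith)
      unfold FF at hF
      linarith
    have h10 := nonneg_of_mul_nonneg_left h7 hspos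
    linarith
  have h11 : T ^ 2 ≤ Real.exp (α * (B - 1) - γ * (X / (X ^ 2 + Y ^ 2))
      - δ * (-Y / (X ^ 2 + Y ^ 2)) - h) ^ 2 := by
    calc T ^ 2 ≤ Real.exp (κ * T ^ 2 - 1 + L) := h1
      _ ≤ Real.exp (2 * (α * (B - 1) - γ * (X / (X ^ 2 + Y ^ 2))
          - δ * (-Y / (X ^ 2 + Y ^ 2)) - h)) := Real.exp_le_exp.2 h6
      _ = _ := by
        rw [← Real.exp_nat_mul]
        norm_num
  exact le_of_sq_le_sq h11 (Real.exp_pos _).le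

/-- far points -/
theorem point_of_far {R R1 y1 y2 α γ δ h x Bm : ℝ} {v : ℂ} (hv : 1 ≤ ‖v‖) (hα : 0 ≤ α)
    (hx : 0 ≤ x) (hy : y1 ^ 2 + y2 ^ 2 = x ^ 2) (hR : 0 ≤ R) (hR1 : R ≤ R1)
    (hB : Bm ≤ ‖v - (R : ℂ)‖) (hBR : R1 < Bm)
    (hm : x + |γ| + |δ| ≤ (α * (Bm - 1) - h) * (Bm - R1)) :
    ‖1 - (⟨y1, -y2⟩ : ℂ) * v⁻¹‖ ≤
      Real.exp (α * (‖v - R‖ - 1) - γ * (v⁻¹).re - δ * (v⁻¹).im - h) := by
  have h1 : Bm - R1 ≤ ‖v‖ := by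
    have h2 : ‖v - (R : ℂ)‖ ≤ ‖v‖ + R := by
      calc ‖v - (R : ℂ)‖ ≤ ‖v‖ + ‖(R : ℂ)‖ := norm_sub_le _ _
        _ = ‖v‖ + R := by rw [Complex.norm_real, Real.norm_of_nonneg hR]
    linarith
  have hp : 0 < Bm - R1 := by linarith
  have h3 : ‖v⁻¹‖ ≤ (Bm - R1)⁻¹ := by
    rw [norm_inv]
    exact inv_anti₀ hp h1
  have hyn : ‖(⟨y1, -y2⟩ : ℂ)‖ = x := by
    have h2 : ‖(⟨y1, -y2⟩ : ℂ)‖ ^ 2 = x ^ 2 := by
      rw [norm_sq_re_im, ← hy]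
      ring
    exact (sq_eq_sq₀ (norm_nonneg _) hx).1 h2
  have h4 : ‖1 - (⟨y1, -y2⟩ : ℂ) * v⁻¹‖ ≤ Real.exp (x * (Bm - R1)⁻¹) := by
    calc ‖1 - (⟨y1, -y2⟩ : ℂ) * v⁻¹‖ ≤ ‖(1 : ℂ)‖ + ‖(⟨y1, -y2⟩ : ℂ) * v⁻¹‖ := norm_sub_le _ _
      _ = 1 + x * ‖v⁻¹‖ := by rw [norm_one, norm_mul, hyn]
      _ ≤ 1 + x * (Bm - R1)⁻¹ := by
        have := mul_le_mul_of_nonneg_left h3 hx
        linarith
      _ ≤ Real.exp (x * (Bm - R1)⁻¹) := by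
        have := Real.add_one_le_exp (x * (Bm - R1)⁻¹)
        linarith
  refine h4.trans (Real.exp_le_exp.2 ?_)
  have h5 : |(v⁻¹).re| ≤ (Bm - R1)⁻¹ := (Complex.abs_re_le_norm _).trans h3
  have h5' : |(v⁻¹).im| ≤ (Bm - R1)⁻¹ := (Complex.abs_im_le_norm _).trans h3
  have h6 : γ * (v⁻¹).re ≤ |γ| * (Bm - R1)⁻¹ := by
    calc γ * (v⁻¹).re ≤ |γ * (v⁻¹).re| := le_abs_self _
      _ = |γ| * |(v⁻¹).re| := abs_mul _ _
      _ ≤ |γ| * (Bm - R1)⁻¹ := mul_le_mul_of_nonneg_left h5 (abs_nonneg _)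
  have h6' : δ * (v⁻¹).im ≤ |δ| * (Bm - R1)⁻¹ := by
    calc δ * (v⁻¹).im ≤ |δ * (v⁻¹).im| := le_abs_self _
      _ = |δ| * |(v⁻¹).im| := abs_mul _ _
      _ ≤ |δ| * (Bm - R1)⁻¹ := mul_le_mul_of_nonneg_left h5' (abs_nonneg _)
  have h7 : (x + |γ| + |δ|) * (Bm - R1)⁻¹ ≤ α * (Bm - 1) - h := by
    rw [← div_eq_mul_inv, div_le_iff₀ hp]
    exact hm
  have h8 : α * (Bm - 1) ≤ α * (‖v - (R : ℂ)‖ - 1) :=
    mul_le_mul_of_nonneg_left (by linarith) hα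
  have h9 : (x + |γ| + |δ|) * (Bm - R1)⁻¹ =
      x * (Bm - R1)⁻¹ + |γ| * (Bm - R1)⁻¹ + |δ| * (Bm - R1)⁻¹ := by ring
  linarith

/-! ## The mean -/

theorem sum_uu {N : ℕ} (hN : 1 ≤ N) (w : Fin N → ℂ) :
    ∑ k, (uu w k).re = N * (av (uu w)).re ∧ ∑ k, (uu w k).im = N * (av (uu w)).im := by
  have hN0 : (N : ℂ) ≠ 0 := by exact_mod_cast (by omega : N ≠ 0)
  have h1 : ∑ k, uu w k = ((N : ℝ) : ℂ) * av (uu w) := by
    unfold av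
    push_cast
    field_simp
  constructor
  · have := congrArg Complex.re h1
    rw [Complex.re_sum, Complex.re_ofReal_mul] at this
    exact this
  · have := congrArg Complex.im h1
    rw [Complex.im_sum, Complex.im_ofReal_mul] at this
    exact this

/-- the sum of the exponents -/
theorem ODual.sum_le {N : ℕ} (hN : 1 ≤ N) {w : Fin N → ℂ} {R α γ δ h : ℝ} (hα : 0 ≤ α)
    (ht : ∑ k, ‖w k - (R : ℂ)‖ ≤ N) :
    ∑ k, (α * (‖w k - R‖ - 1) - γ * (uu w k).re - δ * (uu w k).im - h) ≤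
      -(N * (h + γ * (av (uu w)).re + δ * (av (uu w)).im)) := by
  obtain ⟨h1, h2⟩ := sum_uu hN w
  rw [Finset.sum_sub_distrib, Finset.sum_sub_distrib, Finset.sum_sub_distrib, ← Finset.mul_sum,
    ← Finset.mul_sum, ← Finset.mul_sum, Finset.sum_sub_distrib, h1, h2]
  simp only [Finset.sum_const, Finset.card_univ, Fintype.card_fin, nsmul_eq_mul, mul_one]
  have : α * (∑ k, ‖w k - (R : ℂ)‖ - N) ≤ 0 :=
    mul_nonpos_of_nonneg_of_nonpos hα (by linarith)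
  linarith

/-- **the mean version** -/
theorem ODual.qq_le {N : ℕ} (hN : 1 ≤ N) {w : Fin N → ℂ} {ω : ℂ} {x R y1 y2 α γ δ h : ℝ}
    (hD : ODual R y1 y2 α γ δ h) (hy : (x : ℂ) * ω = ⟨y1, -y2⟩) (hw : ∀ k, 1 ≤ ‖w k‖)
    (ht : ∑ k, ‖w k - (R : ℂ)‖ ≤ N) :
    ‖qq (ru w ω) x‖ ≤
      Real.exp (-(N * (h + γ * (av (uu w)).re + δ * (av (uu w)).im))) := by
  have h1 : ‖qq (ru w ω) x‖ ≤
      Real.exp (∑ k, (α * (‖w k - R‖ - 1) - γ * (uu w k).re - δ * (uu w k).im - h)) := by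
    unfold qq ru
    rw [norm_prod, Real.exp_sum]
    apply Finset.prod_le_prod (fun _ _ => norm_nonneg _)
    intro k _
    rw [← mul_assoc, hy]
    exact hD.le (w k) (hw k)
  exact h1.trans (Real.exp_le_exp.2 (ODual.sum_le hN hD.nonneg ht))

/-- **between two nodes** with the same multipliers: the chord of the two bounds -/
theorem ODual.pair {N : ℕ} (hN : 1 ≤ N) {w : Fin N → ℂ} {ω : ℂ}
    {t x0 x1 R y1 y2 y1' y2' α γ δ h0 h1 : ℝ}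
    (hD : ODual R y1 y2 α γ δ h0) (hD' : ODual R y1' y2' α γ δ h1)
    (hy : (x0 : ℂ) * ω = ⟨y1, -y2⟩) (hy' : (x1 : ℂ) * ω = ⟨y1', -y2'⟩) (hw : ∀ k, 1 ≤ ‖w k‖)
    (ht : ∑ k, ‖w k - (R : ℂ)‖ ≤ N) (ht0 : 0 ≤ t) (ht1 : t ≤ 1) :
    ‖qq (ru w ω) ((1 - t) * x0 + t * x1)‖ ≤
      (1 - t) * Real.exp (-(N * (h0 + γ * (av (uu w)).re + δ * (av (uu w)).im))) +
      t * Real.exp (-(N * (h1 + γ * (av (uu w)).re + δ * (av (uu w)).im))) := by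
  have ht' : 0 ≤ 1 - t := by linarith
  obtain ⟨c, hc⟩ : ∃ c, c = (1 - t) * Real.exp (-h0) + t * Real.exp (-h1) := ⟨_, rfl⟩
  have hc0 : 0 ≤ c := by
    rw [hc]
    positivity
  obtain ⟨A, hA⟩ : ∃ A : Fin N → ℝ, A = fun k =>
      α * (‖w k - R‖ - 1) - γ * (uu w k).re - δ * (uu w k).im - 0 := ⟨_, rfl⟩
  have key : ∀ k, ‖1 - (((1 - t) * x0 + t * x1 : ℝ) : ℂ) * (ω * uu w k)‖ ≤
      Real.exp (A k) * c := by
    intro k
    have e : 1 - (((1 - t) * x0 + t * x1 : ℝ) : ℂ) * (ω * uu w k) =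
        ((1 - t : ℝ) : ℂ) * (1 - (x0 : ℂ) * (ω * uu w k)) +
          ((t : ℝ) : ℂ) * (1 - (x1 : ℂ) * (ω * uu w k)) := by
      push_cast
      ring
    rw [e]
    refine (norm_add_le _ _).trans ?_
    rw [norm_mul, norm_mul, Complex.norm_real, Complex.norm_real,
      Real.norm_of_nonneg ht', Real.norm_of_nonneg ht0, ← mul_assoc, hy, ← mul_assoc, hy']
    have b0 : ‖1 - (⟨y1, -y2⟩ : ℂ) * uu w k‖ ≤ Real.exp (A k) * Real.exp (-h0) := by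
      rw [← Real.exp_add, hA]
      refine (hD.le (w k) (hw k)).trans (le_of_eq ?_)
      congr 1
      simp only [uu]
      ring
    have b1 : ‖1 - (⟨y1', -y2'⟩ : ℂ) * uu w k‖ ≤ Real.exp (A k) * Real.exp (-h1) := by
      rw [← Real.exp_add, hA]
      refine (hD'.le (w k) (hw k)).trans (le_of_eq ?_)
      congr 1
      simp only [uu]
      ring
    calc (1 - t) * ‖1 - (⟨y1, -y2⟩ : ℂ) * uu w k‖ + t * ‖1 - (⟨y1', -y2'⟩ : ℂ) * uu w k‖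
        ≤ (1 - t) * (Real.exp (A k) * Real.exp (-h0)) + t * (Real.exp (A k) * Real.exp (-h1)) :=
          add_le_add (mul_le_mul_of_nonneg_left b0 ht') (mul_le_mul_of_nonneg_left b1 ht0)
      _ = Real.exp (A k) * c := by
        rw [hc]
        ring
  have g1 : ‖qq (ru w ω) ((1 - t) * x0 + t * x1)‖ ≤ Real.exp (∑ k, A k) * c ^ N := by
    unfold qq ru
    rw [norm_prod, Real.exp_sum]
    calc ∏ k, ‖1 - (((1 - t) * x0 + t * x1 : ℝ) : ℂ) * (ω * uu w k)‖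
        ≤ ∏ k, (Real.exp (A k) * c) :=
          Finset.prod_le_prod (fun _ _ => norm_nonneg _) fun k _ => key k
      _ = _ := by
        rw [Finset.prod_mul_distrib]
        simp
  have g2 : Real.exp (∑ k, A k) ≤
      Real.exp (-(N * (0 + γ * (av (uu w)).re + δ * (av (uu w)).im))) := by
    rw [hA]
    exact Real.exp_le_exp.2 (ODual.sum_le hN hD.nonneg ht)
  have g3 : c ^ N ≤ (1 - t) * Real.exp (-h0) ^ N + t * Real.exp (-h1) ^ N := by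
    have := (convexOn_pow N).2 (x := Real.exp (-h0)) (y := Real.exp (-h1))
      (Real.exp_pos _).le (Real.exp_pos _).le ht' ht0 (by ring)
    simpa [hc] using this
  calc ‖qq (ru w ω) ((1 - t) * x0 + t * x1)‖ ≤ Real.exp (∑ k, A k) * c ^ N := g1
    _ ≤ Real.exp (-(N * (0 + γ * (av (uu w)).re + δ * (av (uu w)).im))) *
        ((1 - t) * Real.exp (-h0) ^ N + t * Real.exp (-h1) ^ N) :=
      mul_le_mul g2 g3 (by positivity) (Real.exp_pos _).le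
    _ = _ := by
      rw [← Real.exp_nat_mul, ← Real.exp_nat_mul, mul_add, mul_left_comm, ← Real.exp_add,
        mul_left_comm, ← Real.exp_add]
      congr 3 <;> ring

end Pool.Agent.Lib.MP_af3a4a_an.P1.CHK.H74
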