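import Pool.Agent.Lib.MP_af3a4a_an.P1.CHK.H74.OffCell
import Pool.Agent.Lib.MP_af3a4a_an.P1.CHK.H74.OffDefs
import Pool.Agent.Lib.MP_af3a4a_an.P1.CHK.H58.Tab
import Pool.Agent.Lib.MP_af3a4a_an.P1.CHK.H58.Main

set_option autoImplicit false

/-!
# Off-ray duals, part D: soundness of the checker (council 2, helper74)
-/

namespace Pool.Agent.Lib.MP_af3a4a_an.P1.CHK.H74

open Pool.Agent.Lib.MP_af3a4a_an.P1.CHK.H58 (S kK kL S_cast tab_sound)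
open Pool.Agent.Lib.MP_af3a4a_an.P1.CHK.Arith (ev ev_eq ad ad_cast sub_le_cast)
open Pool.Agent.Lib.MP_af3a4a_an.P1.CHK.Curve (cN sN tab_ok cos_nonneg_tab sin_nonneg_tab)

theorem crn_real {r b t u G1 G2 V22 Lm XE : ℕ} (h : crn r b t u G1 G2 V22 Lm XE = true) :
    0 < ((r : ℝ) ^ 2 + b ^ 2) * (t - u) + 2 * r * (G1 - G2) + Lm - XE ∧
    4 * (b : ℝ) ^ 2 * ((r * ((t : ℝ) - u) + (G1 - G2)) ^ 2 + V22) <
      (((r : ℝ) ^ 2 + b ^ 2) * (t - u) + 2 * r * (G1 - G2) + Lm - XE) ^ 2 := by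
  unfold crn at h
  simp only [ev_eq, Nat.add_eq, Nat.mul_eq, Nat.sub_eq, Nat.pow_eq] at h
  have h := Nat.blt_eq.mp h
  obtain ⟨P, hP⟩ : ∃ P, P = (r * r + b * b) * t + (2 * (r * G1) + Lm) := ⟨_, rfl⟩
  obtain ⟨Q, hQ⟩ : ∃ Q, Q = (r * r + b * b) * u + (2 * (r * G2) + XE) := ⟨_, rfl⟩
  obtain ⟨p, hp⟩ : ∃ p, p = r * t + G1 := ⟨_, rfl⟩
  obtain ⟨n, hn⟩ : ∃ n, n = r * u + G2 := ⟨_, rfl⟩
  rw [← hP, ← hQ, ← hp, ← hn] at h
  have hPQ : Q < P := by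
    by_contra hcon
    have : P - Q = 0 := by omega
    rw [this] at h
    simp at h
  have hv : ((p - n + (n - p) : ℕ) : ℝ) = |(p : ℝ) - n| := ad_cast p n
  have h1 : ((4 * (b * b) * ((p - n + (n - p)) ^ 2 + V22) : ℕ) : ℝ) < (((P - Q) ^ 2 : ℕ) : ℝ) := by
    exact_mod_cast h
  rw [Nat.cast_pow, Nat.cast_sub hPQ.le, Nat.cast_mul, Nat.cast_add, Nat.cast_pow, hv, sq_abs] at h1
  have e1 : (P : ℝ) - Q = ((r : ℝ) ^ 2 + b ^ 2) * (t - u) + 2 * r * (G1 - G2) + Lm - XE := by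
    rw [hP, hQ]
    push_cast
    ring
  have e2 : (p : ℝ) - n = r * ((t : ℝ) - u) + (G1 - G2) := by
    rw [hp, hn]
    push_cast
    ring
  rw [e1, e2] at h1
  refine ⟨?_, ?_⟩
  · rw [← e1, sub_pos]
    exact_mod_cast hPQ
  · refine lt_of_le_of_lt (le_of_eq ?_) h1
    push_cast
    ring

theorem corner {α γ c1 a2 q K lam : ℝ} {M r b t u G1 G2 V22 Lm XE E : ℕ} (hM : 0 < M)
    (ht : (t : ℝ) - u = S * M * (2 * α * (b / M) + K))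
    (hG : (G1 : ℝ) - G2 = (c1 - γ) * (S * M ^ 2))
    (hV : (V22 : ℝ) = (a2 * (S * M ^ 2)) ^ 2)
    (hL : (Lm : ℝ) = lam * (S * M ^ 3)) (hX : (XE : ℝ) = q * (S * M ^ 3) + E)
    (h : crn r b t u G1 G2 V22 Lm XE = true) :
    (E : ℝ) / (S * M ^ 3) ≤ FF α γ c1 a2 q K lam (b / M) (r / M) := by
  obtain ⟨h1, h2⟩ := crn_real h
  have hMR : (0 : ℝ) < M := by exact_mod_cast hM
  have hS : (0 : ℝ) < S := by rw [S_cast]; norm_num
  have hD : (0 : ℝ) < S * M ^ 3 := by positivity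
  obtain ⟨X, hXX⟩ : ∃ X, X = ((r : ℝ) ^ 2 + b ^ 2) * (t - u) + 2 * r * (G1 - G2) + Lm - XE :=
    ⟨_, rfl⟩
  rw [← hXX] at h1 h2
  have eA : A0 α γ c1 q K lam (b / M) (r / M) = (X + E) / (S * M ^ 3) := by
    rw [hXX, ht, hG, hL, hX]
    unfold A0
    field_simp
    ring
  have ev1 : (b / M : ℝ) * a1 α γ c1 K (b / M) (r / M) =
      b * (r * ((t : ℝ) - u) + (G1 - G2)) / (S * M ^ 3) := by
    rw [ht, hG]
    unfold a1
    field_simp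
    ring
  have ev2 : (b / M : ℝ) * a2 = b * (a2 * (S * M ^ 2)) / (S * M ^ 3) := by
    field_simp
  have hn : 2 * ‖(⟨(b / M : ℝ) * a1 α γ c1 K (b / M) (r / M), (b / M : ℝ) * a2⟩ : ℂ)‖ ≤
      X / (S * M ^ 3) := by
    have h3 : (2 * ‖(⟨(b / M : ℝ) * a1 α γ c1 K (b / M) (r / M), (b / M : ℝ) * a2⟩ : ℂ)‖) ^ 2 ≤
        (X / (S * M ^ 3)) ^ 2 := by
      rw [mul_pow, ← Complex.normSq_eq_norm_sq, Complex.normSq_apply]
      simp only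
      rw [ev1, ev2, div_pow]
      have e : (2 : ℝ) ^ 2 * (b * (r * ((t : ℝ) - u) + (G1 - G2)) / (S * M ^ 3) *
          (b * (r * ((t : ℝ) - u) + (G1 - G2)) / (S * M ^ 3)) +
          b * (a2 * (S * M ^ 2)) / (S * M ^ 3) * (b * (a2 * (S * M ^ 2)) / (S * M ^ 3))) =
          4 * (b : ℝ) ^ 2 * ((r * ((t : ℝ) - u) + (G1 - G2)) ^ 2 + V22) / (S * M ^ 3) ^ 2 := by
        rw [hV]
        field_simp
        ring
      rw [e]
      exact div_le_div_of_nonneg_right h2.le (by positivity)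
    have h4 : 0 ≤ X / (S * M ^ 3) := div_nonneg h1.le hD.le
    have := abs_le_abs_of_sq h3
    rw [abs_of_nonneg h4] at this
    exact (le_abs_self _).trans this
  unfold FF
  rw [eA, add_div]
  linarith
where
  abs_le_abs_of_sq {x y : ℝ} (h : x ^ 2 ≤ y ^ 2) : |x| ≤ |y| := sq_le_sq.1 h

theorem sub_sub_cast (x y : ℕ) : ((x - y : ℕ) : ℝ) - ((y - x : ℕ) : ℝ) = (x : ℝ) - y := by
  rcases le_total x y with h | h
  · rw [Nat.sub_eq_zero_of_le h, Nat.cast_sub h]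
    push_cast
    ring
  · rw [Nat.sub_eq_zero_of_le h, Nat.cast_sub h]
    push_cast
    ring

theorem q_approx {kap xm M C : ℕ} {c : ℝ} (hM : 0 < M) (hk : kap < 4294967296)
    (hx : xm ≤ 4 * M) (h0 : (C : ℝ) / 2 ^ 40 ≤ c) (h1 : c ≤ ((C + 1 : ℕ) : ℝ) / 2 ^ 40) :
    |(kap : ℝ) / S * ((xm : ℝ) / M * c) -
      ((kap * (xm * C) / (M * 1099511627776) : ℕ) : ℝ) / S| ≤ 2 / S := by
  have hMR : (0 : ℝ) < M := by exact_mod_cast hM
  have hS : (0 : ℝ) < S := by rw [S_cast]; norm_num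
  obtain ⟨q, hq⟩ : ∃ q, q = kap * (xm * C) / (M * 1099511627776) := ⟨_, rfl⟩
  have hden : 0 < M * 1099511627776 := by positivity
  have g0 : (q : ℝ) ≤ ((kap * (xm * C) : ℕ) : ℝ) / ((M * 1099511627776 : ℕ) : ℝ) := by
    rw [hq]
    exact Nat.cast_div_le
  have g1 : ((kap * (xm * C) : ℕ) : ℝ) / ((M * 1099511627776 : ℕ) : ℝ) < q + 1 := by
    rw [div_lt_iff₀ (by exact_mod_cast hden)]
    have := Nat.lt_div_mul_add hden (a := kap * (xm * C))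
    rw [← hq] at this
    have h2 : kap * (xm * C) < (q + 1) * (M * 1099511627776) := by
      rw [add_mul, one_mul]
      exact this
    exact_mod_cast h2
  push_cast at g0 g1
  have hkR : (kap : ℝ) ≤ 4294967296 := by exact_mod_cast hk.le
  have hxR : (xm : ℝ) ≤ 4 * M := by exact_mod_cast hx
  have hk0 : (0 : ℝ) ≤ kap := Nat.cast_nonneg _
  have hx0 : (0 : ℝ) ≤ (xm : ℝ) / M := by positivity
  have hx4 : (xm : ℝ) / M ≤ 4 := by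
    rw [div_le_iff₀ hMR]
    exact hxR
  have e0 : (kap : ℝ) * ((xm : ℝ) / M * (C / 2 ^ 40)) =
      (kap : ℝ) * (xm * C) / (M * 1099511627776) := by
    field_simp
    ring
  have f0 : (kap : ℝ) * ((xm : ℝ) / M * (C / 2 ^ 40)) ≤ kap * ((xm : ℝ) / M * c) :=
    mul_le_mul_of_nonneg_left (mul_le_mul_of_nonneg_left h0 hx0) hk0
  have f1 : kap * ((xm : ℝ) / M * c) ≤ (kap : ℝ) * ((xm : ℝ) / M * (C / 2 ^ 40)) + 1 := by
    have h2 : c ≤ C / 2 ^ 40 + 1 / 2 ^ 40 := by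
      refine h1.trans (le_of_eq ?_)
      push_cast
      ring
    have h3 : kap * ((xm : ℝ) / M * c) ≤ kap * ((xm : ℝ) / M * (C / 2 ^ 40 + 1 / 2 ^ 40)) :=
      mul_le_mul_of_nonneg_left (mul_le_mul_of_nonneg_left h2 hx0) hk0
    have h4 : (kap : ℝ) * ((xm : ℝ) / M) ≤ 4294967296 * 4 := mul_le_mul hkR hx4 hx0 (by norm_num)
    have h5 : kap * ((xm : ℝ) / M * (C / 2 ^ 40 + 1 / 2 ^ 40)) =
        kap * ((xm : ℝ) / M * (C / 2 ^ 40)) + (kap * ((xm : ℝ) / M)) / 2 ^ 40 := by ring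
    have h6 : (kap * ((xm : ℝ) / M)) / 2 ^ 40 ≤ 1 := by
      rw [div_le_one (by positivity)]
      linarith
    linarith
  have e1 : (kap : ℝ) / S * ((xm : ℝ) / M * c) - (q : ℝ) / S =
      (kap * ((xm : ℝ) / M * c) - q) / S := by ring
  rw [← hq, e1, abs_div, abs_of_pos hS]
  apply div_le_div_of_nonneg_right _ hS.le
  rw [abs_le]
  constructor <;> linarith

/-- the correction is large enough -/
theorem err_ok {M an r0 r1 b0 b1 kpM u : ℕ} {α B R : ℝ} (hM : 0 < M) (hb : b0 ≤ b1) (hr : r0 ≤ r1)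
    (ha : (an : ℝ) = 2 * α * S) (hB : B ≤ b1 / M) (hR : R ≤ r1 / M) :
    ((((3 * (an * b1) + kpM - u : ℕ) : ℝ) / (S * M) + 4 * α * (r1 / M)) * ((b1 : ℝ) / M - b0 / M) ^ 2 / 4
      + ((an * b1 + kpM - u : ℕ) : ℝ) / (S * M) * ((r1 : ℝ) / M - r0 / M) ^ 2 / 4
      + 2 / S * (2 * R + 4 * B)) ≤
    ((err M (M * M) an r0 r1 b0 b1 kpM u : ℕ) : ℝ) / (S * M ^ 3) := by
  have hMR : (0 : ℝ) < M := by exact_mod_cast hM
  have hS : (0 : ℝ) < S := by rw [S_cast]; norm_num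
  have hD : (0 : ℝ) < S * M ^ 3 := by positivity
  obtain ⟨m1, hm1⟩ : ∃ m, m = 3 * (an * b1) + kpM - u := ⟨_, rfl⟩
  obtain ⟨m2, hm2⟩ : ∃ m, m = an * b1 + kpM - u := ⟨_, rfl⟩
  have e1 : err M (M * M) an r0 r1 b0 b1 kpM u =
      ((m1 + 2 * (an * r1)) * (b1 - b0) ^ 2 + m2 * (r1 - r0) ^ 2) / 4
        + (1 + M * M * (4 * r1 + 8 * b1)) := by
    rw [hm1, hm2]
    rfl
  rw [← hm1, ← hm2, e1]
  obtain ⟨Z, hZ⟩ : ∃ Z, Z = (m1 + 2 * (an * r1)) * (b1 - b0) ^ 2 + m2 * (r1 - r0) ^ 2 := ⟨_, rfl⟩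
  rw [← hZ]
  have h4 : (Z : ℝ) / 4 ≤ ((Z / 4 : ℕ) : ℝ) + 1 := by
    have := Nat.lt_div_mul_add (a := Z) (b := 4) (by norm_num)
    have h2 : (Z : ℝ) < ((Z / 4 * 4 + 4 : ℕ) : ℝ) := by exact_mod_cast this
    push_cast at h2
    linarith
  have hZR : (Z : ℝ) = (m1 + 2 * (an * r1)) * ((b1 : ℝ) - b0) ^ 2 + m2 * ((r1 : ℝ) - r0) ^ 2 := by
    rw [hZ]
    push_cast [Nat.cast_sub hb, Nat.cast_sub hr]
    ring
  have hP : (2 : ℝ) / S * (2 * R + 4 * B) ≤ (M : ℝ) * M * (4 * r1 + 8 * b1) / (S * M ^ 3) := by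
    have h5 : (2 : ℝ) / S * (2 * R + 4 * B) ≤ 2 / S * (2 * (r1 / M) + 4 * (b1 / M)) :=
      mul_le_mul_of_nonneg_left (by linarith) (by positivity)
    refine h5.trans (le_of_eq ?_)
    field_simp
    ring
  have hQ : ((m1 : ℝ) / (S * M) + 4 * α * (r1 / M)) * ((b1 : ℝ) / M - b0 / M) ^ 2 / 4
      + (m2 : ℝ) / (S * M) * ((r1 : ℝ) / M - r0 / M) ^ 2 / 4 = (Z / 4) / (S * M ^ 3) := by
    rw [hZR, ha]
    field_simp
    ring
  rw [hQ]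
  calc (Z : ℝ) / 4 / (S * M ^ 3) + 2 / S * (2 * R + 4 * B)
      ≤ (((Z / 4 : ℕ) : ℝ) + 1) / (S * M ^ 3) + (M : ℝ) * M * (4 * r1 + 8 * b1) / (S * M ^ 3) :=
        add_le_add (div_le_div_of_nonneg_right h4 hD.le) hP
    _ = _ := by
      push_cast
      ring

end Pool.Agent.Lib.MP_af3a4a_an.P1.CHK.H74
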